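import Pool.Agent.Helper70K1.PP.Bias
import Pool.Agent.Helper6K1.BN.Defs

/-!
# Languages that are parity predictable by a randomised algorithm
-/

set_option autoImplicit false

namespace Pool.Agent.Helper70K1.NB

open Pool.Agent.NPC
open Pool.Agent.Helper6K1.BN (prob)
open Pool.Agent.Helper70K1.PP (holds)

open Classical in
/-- A language `L` is parity predictable by a randomised algorithm if for polynomials `P`, `ρ` a
function `g`, computable in polynomial time, gets a list `xs` of at least `P(n)` strings of length
at most `n` and random bits `r` (there are `ρ(k)` of them, where `k` is the length of the code of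
`xs`) and gives a statement `(s, b)` which with probability at least `1/2 + 1/(P(n)+1)` is
admissible and true. It is admissible if `s` is a list of booleans, as long as `xs`, not all of them
`false`; it selects the strings `x` in `xs` at the positions where it has `true`. The statement says
that the parity of the number of the selected strings that are in `L` is `b` (`true`: odd). -/
def RPredictable (L : Set (List Bool)) : Prop :=
  ∃ (P ρ : Polynomial ℕ) (g : List Bool → List Bool × Bool), PolyTime (fun y => bits (g y)) ∧
    ∀ (n : ℕ) (xs : List (List Bool)), (∀ x ∈ xs, x.length ≤ n) → P.eval n ≤ xs.length →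
      1 / 2 + 1 / (((P.eval n : ℕ) : ℝ) + 1) ≤ prob (ρ.eval (bits xs).length) fun r =>
        (g (pairBits (bits xs) r)).1.length = xs.length ∧
        true ∈ (g (pairBits (bits xs) r)).1 ∧
        holds (xs.map fun x => decide (x ∈ L)) (g (pairBits (bits xs) r)) = true

end Pool.Agent.Helper70K1.NB
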