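import Pool.Agent.Helper70K1.NB.Lang

/-!
# The search for a unique certificate with a randomised parity predictor
-/

set_option autoImplicit false

namespace Pool.Agent.Helper70K1.NB

open Finset BigOperators Pool.Agent.NPC
open Pool.Agent.Helper6K1.BN (prob prob_eq BLL mem_BLL BLL_nonempty expect_BLL_zero
  BL_nonempty expect_rows mm Unq Pred uncd uncd_poly foldr_cd expect_BL_zero)
open Pool.Agent.H579R2.Spt (BL mem_BL ip cd ip_poly ver ver_poly ver_iff rowsL rowsL_poly take_poly')
open Pool.Agent.Helper70K1.SP
open Pool.Agent.Helper70K1.PP (holds cor listP mem_listP findF findF_spec rrP nnP rrP_spec nnP_pos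
  param_okP bitP wd hh cc RB poly_findF poly_listP)

/-! ### The predictor as a fixed function -/

/-- Decoding of a query. -/
def dq (s : List Bool) : List Bool × List (List Bool) :=
  (unbits (List Bool × List (List Bool)) s).getD ([], [])

/-- The list of statements for the code of a list of queries. -/
def gS (ρ : Polynomial ℕ) (g : List Bool → List Bool × Bool) (z : List Bool) :
    List (List Bool × Bool) :=
  (unbits (List (List Bool)) z).elim [] fun zs =>
    GG ρ g (dq (zs.head?.getD [])).2 (zs.map fun s => (dq s).1)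

theorem dq_bits (y : List Bool) (H : List (List Bool)) :
    dq (bits ((y, H) : List Bool × List (List Bool))) = (y, H) := by
  unfold dq
  rw [unbits_bits]
  rfl

theorem gS_bits (ρ : Polynomial ℕ) (g : List Bool → List Bool × Bool) {M : ℕ} (hM : 0 < M)
    (y : ℕ → List Bool) (H : List (List Bool)) :
    gS ρ g (bits ((List.range M).map fun i => bits ((y i, H) : List Bool × List (List Bool)))) =
      GG ρ g H ((List.range M).map y) := by
  unfold gS
  rw [unbits_bits]
  simp only [Option.elim]
  obtain ⟨k, rfl⟩ : ∃ k, M = k + 1 := ⟨M - 1, by omega⟩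
  have h1 : ((List.range (k + 1)).map fun i =>
      bits ((y i, H) : List Bool × List (List Bool))).head?.getD [] =
      bits ((y 0, H) : List Bool × List (List Bool)) := by
    rw [List.range_succ_eq_map]
    simp
  rw [h1, dq_bits, List.map_map]
  congr 1
  refine List.map_congr_left fun i _ => ?_
  simp only [Function.comp, dq_bits]

variable {α : Type} [TEnc α]

theorem poly_dq {s : α → List Bool} (hs : NPC.Poly s) : NPC.Poly (fun a => dq (s a)) := by
  unfold dq
  exact NPC.Poly.optGetD (poly_unbits.comp hs) (NPC.Poly.const _)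

theorem poly_pairBits' {x w : α → List Bool} (hx : NPC.Poly x) (hw : NPC.Poly w) :
    NPC.Poly (fun a => pairBits (x a) (w a)) := by
  unfold pairBits
  fun_prop

theorem poly_g {g : List Bool → List Bool × Bool} (hg : PolyTime fun y => bits (g y)) :
    NPC.Poly g := by
  have h1 : NPC.Poly (fun x => bits (g x)) := PIso.poly_iff.2 hg
  have h2 : NPC.Poly (fun x => unbits (List Bool × Bool) (bits (g x))) := poly_unbits.comp h1
  exact (NPC.Poly.optGetD h2 (NPC.Poly.const ([], false))).congr fun x => by
    simp only [unbits_bits, Option.getD_some]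

theorem poly_GG {ρ : Polynomial ℕ} {g : List Bool → List Bool × Bool} (hg : NPC.Poly g)
    {H xs : α → List (List Bool)} (hH : NPC.Poly H) (hxs : NPC.Poly xs) :
    NPC.Poly (fun a => GG ρ g (H a) (xs a)) := by
  unfold GG
  have hb : NPC.Poly (fun a => bits (xs a)) := poly_bits hxs
  have hρ : NPC.Poly (fun a => ρ.eval (bits (xs a)).length) := ((UPoly.length hb).eval ρ).toPoly
  refine NPC.Poly.filter (p := fun a (e : List Bool × Bool) => decide (e.1.length = (xs a).length) &&
    decide (true ∈ e.1)) (NPC.Poly.map (F := fun a b => g (pairBits (bits (xs a))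
      (b.take (ρ.eval (bits (xs a)).length)))) hH ?_) ?_
  · refine hg.comp (poly_pairBits' (hb.comp (NPC.Poly.fst NPC.Poly.id)) ?_)
    exact take_poly' (NPC.Poly.snd NPC.Poly.id) (hρ.comp (NPC.Poly.fst NPC.Poly.id))
  · have h1 : NPC.Poly (fun x : α × List Bool × Bool => x.2.1.any fun b => b) :=
      NPC.Poly.any (l := fun x : α × List Bool × Bool => x.2.1) (p := fun _ b => b)
        (by fun_prop) (NPC.Poly.snd NPC.Poly.id)
    have h2 : NPC.Poly (fun x : α × List Bool × Bool => decide (true ∈ x.2.1)) := by
      refine h1.congr fun x => ?_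
      rw [Bool.eq_iff_iff, List.any_eq_true, decide_eq_true_eq]
      constructor
      · rintro ⟨b, hb1, hb2⟩
        rwa [← hb2]
      · intro h
        exact ⟨true, h, rfl⟩
    have h3 : NPC.Poly (fun x : α × List Bool × Bool => (xs x.1).length) :=
      NPC.Poly.length (hxs.comp (NPC.Poly.fst NPC.Poly.id))
    exact NPC.Poly.and (NPC.Poly.decide_eq (NPC.Poly.length
      (NPC.Poly.fst (NPC.Poly.snd NPC.Poly.id))) h3) h2

theorem polyTime_gS {ρ : Polynomial ℕ} {g : List Bool → List Bool × Bool} (hg : NPC.Poly g) :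
    PolyTime (fun z => bits (gS ρ g z)) := by
  refine PIso.poly_iff.1 (poly_bits ?_)
  unfold gS
  refine NPC.Poly.optElim (o := fun z => unbits (List (List Bool)) z) (g := fun _ => [])
    (h := fun _ zs => GG ρ g (dq (zs.head?.getD [])).2 (zs.map fun s => (dq s).1)) poly_unbits
    (NPC.Poly.const _) ?_
  have h1 : NPC.Poly (fun x : List Bool × List (List Bool) => (dq (x.2.head?.getD [])).2) :=
    NPC.Poly.snd (poly_dq (NPC.Poly.head?_getD (NPC.Poly.snd NPC.Poly.id) _))
  have h2 : NPC.Poly (fun x : List Bool × List (List Bool) => x.2.map fun s => (dq s).1) :=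
    NPC.Poly.map (F := fun _ s => (dq s).1) (NPC.Poly.snd NPC.Poly.id)
      (NPC.Poly.fst (poly_dq (NPC.Poly.snd NPC.Poly.id)))
  exact poly_GG hg h1 h2

/-! ### Parameters -/

/-- The number of queries in a list. -/
noncomputable def QM (P : Polynomial ℕ) : Polynomial ℕ :=
  Polynomial.C 2 * (P.comp PP.PN + Polynomial.C 1) + PP.PN + Polynomial.C 1

theorem QM_eval (P : Polynomial ℕ) (m : ℕ) :
    (QM P).eval m = 2 * (P.eval (PP.PN.eval m) + 1) + PP.PN.eval m + 1 := by
  simp [QM, Polynomial.eval_comp]

theorem QM_pos (P : Polynomial ℕ) (m : ℕ) : 0 < (QM P).eval m := by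
  rw [QM_eval]; omega

/-- The number of blocks of random bits. -/
noncomputable def QS (P : Polynomial ℕ) : Polynomial ℕ :=
  Polynomial.C 8 * ((Polynomial.X + Polynomial.C 1) *
    (Polynomial.C 4 * QM P ^ 2 + Polynomial.C 1) ^ (3 * cc)) * (P.comp PP.PN + Polynomial.C 1) ^ 2

theorem QS_eval (P : Polynomial ℕ) (m : ℕ) : (QS P).eval m = 8 * ((m + 1) *
    (4 * (QM P).eval m ^ 2 + 1) ^ (3 * cc)) * (P.eval (PP.PN.eval m) + 1) ^ 2 := by
  simp [QS, Polynomial.eval_comp]

theorem QS_pos (P : Polynomial ℕ) (m : ℕ) : 0 < (QS P).eval m := by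
  rw [QS_eval]; positivity

/-- The length of the blocks of random bits. -/
noncomputable def QR (P ρ : Polynomial ℕ) : Polynomial ℕ :=
  ρ.comp (QM P * (Polynomial.C 4 * PP.PN + Polynomial.C 2) + Polynomial.C 1)

theorem QR_eval (P ρ : Polynomial ℕ) (m : ℕ) : (QR P ρ).eval m =
    ρ.eval ((QM P).eval m * (4 * PP.PN.eval m + 2) + 1) := by
  simp [QR, Polynomial.eval_comp]

section

variable (V0 : List Bool → List Bool) (p P ρ : Polynomial ℕ) (g : List Bool → List Bool × Bool)
  (c0 : ℕ)

/-- The size parameter. -/
noncomputable def pm : Polynomial ℕ := p + Polynomial.X + Polynomial.C c0 + Polynomial.C 1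

theorem pm_eval (n : ℕ) : (pm p c0).eval n = p.eval n + n + c0 + 1 := by simp [pm]

/-- The query. -/
def qy (x : List Bool) (rows : List (List Bool)) (f : List Bool) (j q t i : ℕ) : List Bool :=
  bits ((x, rows, j, q, f, t, i) : QN)

/-- The query with the random blocks. -/
def qz (x : List Bool) (rows : List (List Bool)) (f : List Bool) (H : List (List Bool))
    (j q t i : ℕ) : List Bool :=
  bits ((qy x rows f j q t i, H) : List Bool × List (List Bool))

/-- The candidates for the number of the certificate. -/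
noncomputable def VS (x : List Bool) (rows H : List (List Bool)) : List ℕ :=
  listP (gS ρ g) (qz x rows (findF (rrP ((QM P).eval ((pm p c0).eval x.length)))) H)
    ((QM P).eval ((pm p c0).eval x.length)) (nnP ((QM P).eval ((pm p c0).eval x.length)))
    (rrP ((QM P).eval ((pm p c0).eval x.length)))
    (findF (rrP ((QM P).eval ((pm p c0).eval x.length)))) (p.eval x.length + 1)

/-- The search. -/
noncomputable def FF (x : List Bool) (rows H : List (List Bool)) : List Bool :=
  (((VS p P ρ g c0 x rows H).map fun v => uncd v.bits).filter fun w =>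
    ver V0 p x w && rows.all fun a => !ip a (cd w)).head?.getD []

/-- The blocks. -/
noncomputable def HH (x h : List Bool) : List (List Bool) :=
  rowsL ((QR P ρ).eval ((pm p c0).eval x.length)) ((QS P).eval ((pm p c0).eval x.length)) h

/-- The predictor of the inner products. -/
noncomputable def BB : Pred := fun z =>
  ip z.2.2.2.1 (cd (FF V0 p P ρ g c0 z.1 z.2.1 (HH p P ρ c0 z.1 z.2.2.1)))

/-- The number of random bits. -/
noncomputable def AA : Polynomial ℕ := (QS P * QR P ρ).comp (pm p c0)

theorem AA_eval (n : ℕ) : (AA p P ρ c0).eval n =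
    (QS P).eval ((pm p c0).eval n) * (QR P ρ).eval ((pm p c0).eval n) := by
  simp [AA, Polynomial.eval_comp]

variable {V0 p P ρ g c0}

theorem BB_poly (hV0 : PolyTime V0) (hg : NPC.Poly g) : NPC.Poly (BB V0 p P ρ g c0) := by
  have ex : NPC.Poly (fun z : List Bool × List (List Bool) × List Bool × List Bool × List Bool =>
      z.1) := NPC.Poly.fst NPC.Poly.id
  have er : NPC.Poly (fun z : List Bool × List (List Bool) × List Bool × List Bool × List Bool =>
      z.2.1) := NPC.Poly.fst (NPC.Poly.snd NPC.Poly.id)
  have eh : NPC.Poly (fun z : List Bool × List (List Bool) × List Bool × List Bool × List Bool =>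
      z.2.2.1) := NPC.Poly.fst (NPC.Poly.snd (NPC.Poly.snd NPC.Poly.id))
  have eu : NPC.Poly (fun z : List Bool × List (List Bool) × List Bool × List Bool × List Bool =>
      z.2.2.2.1) := NPC.Poly.fst (NPC.Poly.snd (NPC.Poly.snd (NPC.Poly.snd NPC.Poly.id)))
  have hm : UPoly (fun z : List Bool × List (List Bool) × List Bool × List Bool × List Bool =>
      (pm p c0).eval z.1.length) := (UPoly.length ex).eval (pm p c0)
  have hMU := hm.eval (QM P)
  have hSU := hm.eval (QS P)
  have hRU := hm.eval (QR P ρ)
  have eH : NPC.Poly (fun z : List Bool × List (List Bool) × List Bool × List Bool × List Bool =>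
      HH p P ρ c0 z.1 z.2.2.1) := rowsL_poly hRU.toPoly hSU eh
  have hM2U : UPoly (fun z : List Bool × List (List Bool) × List Bool × List Bool × List Bool =>
      2 * ((QM P).eval ((pm p c0).eval z.1.length)) ^ 2) := by
    have := hMU.eval (Polynomial.C 2 * Polynomial.X ^ 2)
    simpa using this
  have hrU : UPoly (fun z : List Bool × List (List Bool) × List Bool × List Bool × List Bool =>
      rrP ((QM P).eval ((pm p c0).eval z.1.length))) := upoly_size hM2U
  have hRB : RB (fun z : List Bool × List (List Bool) × List Bool × List Bool × List Bool =>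
      rrP ((QM P).eval ((pm p c0).eval z.1.length))) := by
    refine ⟨hrU, UPoly.of_le (poly_pow2 hrU) (UPoly.add (UPoly.mul (UPoly.const 2) hM2U)
      (UPoly.const 1)) fun x => ?_⟩
    refine (rrP_spec (QM_pos _ _)).2.2.trans (le_of_eq ?_)
    ring
  have hNU : UPoly (fun z : List Bool × List (List Bool) × List Bool × List Bool × List Bool =>
      nnP ((QM P).eval ((pm p c0).eval z.1.length))) := by
    have h1 := (hMU.eval (Polynomial.X ^ 2)).mul hRB.four
    unfold nnP
    simpa using h1
  have hFP := poly_findF hRB.hr hRB.h1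
  have hVS : NPC.Poly (fun z : List Bool × List (List Bool) × List Bool × List Bool × List Bool =>
      VS p P ρ g c0 z.1 z.2.1 (HH p P ρ c0 z.1 z.2.2.1)) := by
    unfold VS
    refine poly_listP (polyTime_gS hg) (qb := fun z : List Bool × List (List Bool) × List Bool ×
      List Bool × List Bool => qz z.1 z.2.1 (findF (rrP ((QM P).eval ((pm p c0).eval
        z.1.length)))) (HH p P ρ c0 z.1 z.2.2.1)) ?_ hMU hNU (fun x => nnP_pos (QM_pos _ _)) hRB
        (((UPoly.length ex).eval p).add (UPoly.const 1)) hFP
    unfold qz qy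
    have f0 : NPC.Poly (fun y : (List Bool × List (List Bool) × List Bool × List Bool × List Bool) ×
        ℕ × ℕ × ℕ × ℕ => y.1) := NPC.Poly.fst NPC.Poly.id
    have f1 := ex.comp f0
    have f2 := er.comp f0
    have f3 := hFP.comp f0
    have f4 := eH.comp f0
    refine poly_bits (NPC.Poly.pair (poly_bits ?_) f4)
    exact NPC.Poly.pair f1 (NPC.Poly.pair f2 (NPC.Poly.pair (by fun_prop) (NPC.Poly.pair
      (by fun_prop) (NPC.Poly.pair f3 (NPC.Poly.pair (by fun_prop) (by fun_prop))))))
  have hFF : NPC.Poly (fun z : List Bool × List (List Bool) × List Bool × List Bool × List Bool =>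
      FF V0 p P ρ g c0 z.1 z.2.1 (HH p P ρ c0 z.1 z.2.2.1)) := by
    unfold FF
    refine NPC.Poly.head?_getD (NPC.Poly.filter (p := fun (z : List Bool × List (List Bool) ×
      List Bool × List Bool × List Bool) w => ver V0 p z.1 w && z.2.1.all fun a => !ip a (cd w))
      (NPC.Poly.map (F := fun (z : List Bool × List (List Bool) × List Bool × List Bool ×
        List Bool) (v : ℕ) => uncd v.bits) hVS ?_) ?_) _
    · exact uncd_poly (NPC.Poly.natBits (NPC.Poly.snd NPC.Poly.id))
    · refine NPC.Poly.and ((ver_poly hV0 p).comp (NPC.Poly.pair (ex.comp (NPC.Poly.fst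
        NPC.Poly.id)) (NPC.Poly.snd NPC.Poly.id))) ?_
      refine NPC.Poly.all (l := fun y : (List Bool × List (List Bool) × List Bool × List Bool ×
        List Bool) × List Bool => y.1.2.1) (p := fun y a => !ip a (cd y.2))
        (er.comp (NPC.Poly.fst NPC.Poly.id)) ?_
      exact NPC.Poly.not (ip_poly (NPC.Poly.snd NPC.Poly.id)
        (poly_cd (NPC.Poly.snd (NPC.Poly.fst NPC.Poly.id))))
  exact ip_poly eu (poly_cd hFF)

/-- The size of the queries. -/
theorem sz_qy {x : List Bool} {rows : List (List Bool)} {f : List Bool} {m r j q t i k : ℕ}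
    (hx : x.length ≤ m) (hrows : rows.length ≤ m) (hrow : ∀ u ∈ rows, u.length ≤ m)
    (hj : j ≤ m) (hrm : r ≤ m) (hq : q < 2 ^ (r * cc)) (hf : f.length = r)
    (ht : t < 2 ^ (r * (2 * cc))) (hi : i < 2 ^ r) (hk : k = PP.PN.eval m) :
    (qy x rows f j q t i).length ≤ k := by
  unfold qy
  rw [bits_length, hk]
  have h1 := sz_listBool_le x
  have h2 := sz_le_length_mul rows (4 * m + 1) (fun u hu => by
    have := sz_listBool_le u
    have := hrow u hu
    omega)
  have h3 : rows.length * (4 * m + 1 + 1) ≤ m * (4 * m + 1 + 1) := Nat.mul_le_mul_right _ hrows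
  have h6 : sz j ≤ 4 * m + 1 := by
    have h7 := sz_nat_le j
    have h8 := Poly.size_le_self j
    omega
  have h7 := sz_lt_two_pow hq
  have h8 := sz_lt_two_pow ht
  have h9 := sz_lt_two_pow hi
  have h10 : sz f ≤ 4 * r + 1 := by
    have := sz_listBool_le f
    omega
  simp only [sz_pair, PP.PN_eval, cc] at *
  nlinarith

end

end Pool.Agent.Helper70K1.NB
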