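import Pool.Agent.Helper70K1.NB.Algo

/-!
# The search is correct with high probability
-/

set_option autoImplicit false

namespace Pool.Agent.Helper70K1.NB

open Finset BigOperators Pool.Agent.NPC
open Pool.Agent.Helper6K1.BN (prob prob_eq BLL mem_BLL BLL_nonempty expect_BLL_zero
  BL_nonempty expect_rows mm Unq Pred uncd uncd_poly foldr_cd expect_BL_zero sg InBPP engine_BPP)
open Pool.Agent.H579R2.Spt (BL mem_BL ip cd ip_poly ver ver_poly ver_iff rowsL rowsL_poly take_poly')
open Pool.Agent.Helper70K1.SP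
open Pool.Agent.Helper70K1.PP (holds cor listP mem_listP findF findF_spec rrP nnP rrP_spec nnP_pos
  param_okP bitP wd hh cc RB poly_findF poly_listP GoodG)

theorem uncd_cd (w : List Bool) : uncd (cd w) = w := by
  have h := foldr_cd w 0
  rw [List.replicate_zero] at h
  unfold uncd cd
  rw [h]
  rfl

theorem head_of_unique {l : List (List Bool)} {w : List Bool} (h1 : w ∈ l)
    (h2 : ∀ w' ∈ l, w' = w) : l.head?.getD [] = w := by
  cases l with
  | nil => simp at h1
  | cons a l => exact h2 a List.mem_cons_self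

theorem le_QM (P : Polynomial ℕ) (m : ℕ) : m ≤ (QM P).eval m := by
  have h1 : m ≤ PP.PN.eval m := by
    rw [PP.PN_eval]
    nlinarith
  rw [QM_eval]
  omega

theorem num_bound {T m M a S k : ℕ} (hT : T ≤ (m + 1) * (4 * M ^ 2 + 1) ^ k)
    (hS : S = 8 * ((m + 1) * (4 * M ^ 2 + 1) ^ k) * (a + 1) ^ 2) :
    (T : ℝ) * (4 * ((a : ℝ) + 1) ^ 2 / (S : ℝ)) ≤ 1 / 2 := by
  set K := (m + 1) * (4 * M ^ 2 + 1) ^ k with hK
  have hK0 : 0 < K := Nat.mul_pos (Nat.succ_pos _) (Nat.pow_pos (Nat.succ_pos _))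
  have hKR : (0 : ℝ) < K := by exact_mod_cast hK0
  have hSe : (S : ℝ) = 8 * K * ((a : ℝ) + 1) ^ 2 := by
    rw [hS]
    push_cast
    ring
  have hTR : (T : ℝ) ≤ K := by exact_mod_cast hT
  have ha0 : (0 : ℝ) < (a : ℝ) + 1 := by positivity
  have e4 : 4 * ((a : ℝ) + 1) ^ 2 / (8 * K * ((a : ℝ) + 1) ^ 2) = 1 / (2 * K) := by
    field_simp
    ring
  rw [hSe, e4, mul_one_div, div_le_div_iff₀ (by positivity) (by norm_num)]
  linarith

/-- The language of the queries with random blocks. -/
def LQ (A : Set (List Bool)) : Set (List Bool) := {s | (dq s).1 ∈ A}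

theorem mem_LQ {A : Set (List Bool)} {y : List Bool} {H : List (List Bool)} :
    bits ((y, H) : List Bool × List (List Bool)) ∈ LQ A ↔ y ∈ A := by
  have h1 : bits ((y, H) : List Bool × List (List Bool)) ∈ LQ A ↔
      (dq (bits ((y, H) : List Bool × List (List Bool)))).1 ∈ A := Iff.rfl
  rw [h1, dq_bits]

section

variable {V0 : List Bool → List Bool} {p P ρ : Polynomial ℕ} {g : List Bool → List Bool × Bool}
  {c0 : ℕ}

open Classical in
/-- The sample is good for the list of queries with the parameters `j`, `q`, `t`. -/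
def GJ (V0 : List Bool → List Bool) (p P ρ : Polynomial ℕ) (g : List Bool → List Bool × Bool)
    (m : ℕ) (x : List Bool) (rows H : List (List Bool)) (j q t : ℕ) : Prop :=
  GoodH ρ g (((List.range ((QM P).eval m)).map (qy x rows (findF (rrP ((QM P).eval m))) j q t)).map
    fun y => decide (y ∈ lang (WN V0 p))) (P.eval (PP.PN.eval m)) ((QS P).eval m) H
      ((List.range ((QM P).eval m)).map (qy x rows (findF (rrP ((QM P).eval m))) j q t))

/-- The search is correct if all the samples are good. -/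
theorem FF_eq {x w : List Bool} {rows H : List (List Bool)} {m : ℕ}
    (hm : m = (pm p c0).eval x.length) (hH : H.length = (QS P).eval m)
    (hu : Unq V0 p x rows w)
    (hg : ∀ j ≤ p.eval x.length + 1, ∀ q < 2 ^ (rrP ((QM P).eval m) * cc),
      ∀ t < 2 ^ (rrP ((QM P).eval m) * (2 * cc)), GJ V0 p P ρ g m x rows H j q t) :
    FF V0 p P ρ g c0 x rows H = w := by
  classical
  obtain ⟨hw, hr, huniq⟩ := hu
  set M := (QM P).eval m with hM
  have hM0 : 0 < M := QM_pos _ _
  obtain ⟨hr0, hr1, hr2⟩ := rrP_spec hM0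
  obtain ⟨hfl, hz⟩ := findF_spec hr0
  set f := findF (rrP M) with hf
  set V := valB (cd w) with hV
  have hwl : w.length ≤ p.eval x.length := (ver_iff.1 hw).1
  have hVlt : V < 2 ^ (p.eval x.length + 1) := by
    refine lt_of_lt_of_le (valB_lt (cd w)) (Nat.pow_le_pow_right (by norm_num) ?_)
    simp only [cd, List.length_append, List.length_singleton]
    omega
  have hmm : p.eval x.length + 1 ≤ M := by
    have h1 : p.eval x.length + 1 ≤ m := by
      rw [hm, pm_eval]
      omega
    exact h1.trans (le_QM P m)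
  have hxs : ∀ j q t, ((List.range M).map (qz x rows f H j q t)) =
      (List.range M).map fun i => bits ((qy x rows f j q t i, H) : List Bool × List (List Bool)) :=
    fun j q t => rfl
  have key := mem_listP (g := gS ρ g) (qb := qz x rows f H) (M := M) (N := nnP M) (r := rrP M)
    (f := f) (L := LQ (lang (WN V0 p))) (V := V) (μ := p.eval x.length + 1)
    hr0 hfl hz (param_okP hM0 hmm) hr1 le_rfl (nnP_pos hM0) ?_ ?_ (p.eval x.length + 1) le_rfl
  · rw [Nat.mod_eq_of_lt hVlt] at key
    have hVS : V ∈ VS p P ρ g c0 x rows H := by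
      unfold VS
      rw [← hm]
      exact key
    unfold FF
    refine head_of_unique ?_ ?_
    · rw [List.mem_filter, List.mem_map]
      refine ⟨⟨V, hVS, ?_⟩, ?_⟩
      · rw [hV, bits_valB_cd, uncd_cd]
      · rw [hw, hr]; rfl
    · intro w' hw'
      rw [List.mem_filter, Bool.and_eq_true] at hw'
      exact huniq w' hw'.2.1 hw'.2.2
  · intro j q t i _
    unfold qz
    rw [mem_LQ]
    unfold qy
    rw [mem_WN hw hr huniq]
    have e : bitP f t (V % 2 ^ j % q) i = wd (rrP M) f (hh (rrP M) f cc t 0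
        (V % 2 ^ j % q)) (hh (rrP M) f cc t cc (V % 2 ^ j % q)) i := by
      unfold bitP
      rw [hfl]
    rw [← e]
  · intro j hj q hq t ht
    have h1 := hg j hj q hq t ht
    unfold GJ at h1
    rw [← hM, ← hf] at h1
    have h2 : gS ρ g (bits ((List.range M).map (qz x rows f H j q t))) =
        GG ρ g H ((List.range M).map (qy x rows f j q t)) := by
      rw [hxs, gS_bits ρ g hM0]
    have h3 : (((List.range M).map (qz x rows f H j q t)).map fun s =>
        decide (s ∈ LQ (lang (WN V0 p)))) =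
        ((List.range M).map (qy x rows f j q t)).map fun y => decide (y ∈ lang (WN V0 p)) := by
      rw [List.map_map, List.map_map]
      refine List.map_congr_left fun i _ => ?_
      simp only [Function.comp, decide_eq_decide]
      unfold qz
      exact mem_LQ
    have h4 := goodH_spec (M := M) hH (by simp) (by
      rw [hM, QM_eval]; omega) (QS_pos P m) h1
    unfold GoodG
    rw [h2, h3]
    exact h4

open Classical in
theorem GJ_prob (hpred : ∀ (n : ℕ) (xs : List (List Bool)), (∀ x ∈ xs, x.length ≤ n) →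
      P.eval n ≤ xs.length →
      1 / 2 + 1 / (((P.eval n : ℕ) : ℝ) + 1) ≤ prob (ρ.eval (bits xs).length) fun r =>
        (g (pairBits (bits xs) r)).1.length = xs.length ∧
        true ∈ (g (pairBits (bits xs) r)).1 ∧
        holds (xs.map fun x => decide (x ∈ lang (WN V0 p))) (g (pairBits (bits xs) r)) = true)
    {x : List Bool} {rows : List (List Bool)} {m j q t : ℕ} (hc : 2 * (QM P).eval m ^ 2 < 2 ^ m)
    (hx : x.length ≤ m) (hrows : rows.length ≤ m) (hrow : ∀ u ∈ rows, u.length ≤ m)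
    (hj : j ≤ m) (hq : q < 2 ^ (rrP ((QM P).eval m) * cc))
    (ht : t < 2 ^ (rrP ((QM P).eval m) * (2 * cc))) :
    𝔼 H ∈ BLL ((QR P ρ).eval m) ((QS P).eval m),
      (if GJ V0 p P ρ g m x rows H j q t then (0 : ℝ) else 1) ≤
      4 * (((P.eval (PP.PN.eval m) : ℕ) : ℝ) + 1) ^ 2 / (((QS P).eval m : ℕ) : ℝ) := by
  set M := (QM P).eval m with hM
  have hM0 : 0 < M := QM_pos _ _
  obtain ⟨hr0, hr1, hr2⟩ := rrP_spec hM0
  obtain ⟨hfl, _⟩ := findF_spec hr0
  set f := findF (rrP M) with hf
  have hrm : rrP M ≤ m := Nat.size_le.2 hc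
  set xs := (List.range M).map (qy x rows f j q t) with hxs
  have hlen : ∀ y ∈ xs, y.length ≤ PP.PN.eval m := by
    intro y hy
    obtain ⟨i, hi, rfl⟩ := List.mem_map.1 hy
    rw [List.mem_range] at hi
    refine sz_qy hx hrows hrow hj hrm hq hfl ht ?_ rfl
    have := Nat.le_self_pow (n := 2) (by norm_num) M
    omega
  have hxl : xs.length = M := by rw [hxs]; simp
  refine goodH_prob (QS_pos P m) ?_ (hpred (PP.PN.eval m) xs hlen ?_)
  · rw [QR_eval, ← hM]
    refine eval_mono ρ ?_
    rw [bits_length]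
    refine (sz_le_length_mul xs (4 * PP.PN.eval m + 1) fun y hy => ?_).trans ?_
    · have h1 := sz_listBool_le y
      have h2 := hlen y hy
      omega
    · rw [hxl]
  · rw [hxl, hM, QM_eval]
    omega

open Classical in
/-- The predictor has an advantage. -/
theorem good (hpred : ∀ (n : ℕ) (xs : List (List Bool)), (∀ x ∈ xs, x.length ≤ n) →
      P.eval n ≤ xs.length →
      1 / 2 + 1 / (((P.eval n : ℕ) : ℝ) + 1) ≤ prob (ρ.eval (bits xs).length) fun r =>
        (g (pairBits (bits xs) r)).1.length = xs.length ∧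
        true ∈ (g (pairBits (bits xs) r)).1 ∧
        holds (xs.map fun x => decide (x ∈ lang (WN V0 p))) (g (pairBits (bits xs) r)) = true)
    (hc : ∀ m ≥ c0, 2 * (QM P).eval m ^ 2 < 2 ^ m) (hc1 : 1 ≤ c0) :
    Helper6K1.BN.Good V0 p (BB V0 p P ρ g c0) (AA p P ρ c0) (Polynomial.C 2) := by
  intro x rows w h1 h2 h3
  set m := (pm p c0).eval x.length with hm
  have hme : m = p.eval x.length + x.length + c0 + 1 := by rw [hm, pm_eval]
  set M := (QM P).eval m with hM
  have hM0 : 0 < M := QM_pos _ _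
  obtain ⟨hr0, hr1, hr2⟩ := rrP_spec hM0
  set S := (QS P).eval m with hS
  set R := (QR P ρ).eval m with hR
  have hmm : mm p x = p.eval x.length + 1 := rfl
  rw [hmm] at h1 h2
  -- the set of parameters
  set T := range (p.eval x.length + 2) ×ˢ (range (2 ^ (rrP M * cc)) ×ˢ
    range (2 ^ (rrP M * (2 * cc)))) with hT
  set AG : List (List Bool) → Prop := fun H => ∀ a ∈ T, GJ V0 p P ρ g m x rows H a.1 a.2.1 a.2.2
    with hAG
  have hQ : (((Polynomial.C 2 : Polynomial ℕ).eval x.length : ℕ) : ℝ) = 2 := by simp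
  rw [hQ]
  -- the union bound
  have hU : ∀ H, 1 - ∑ a ∈ T, (if GJ V0 p P ρ g m x rows H a.1 a.2.1 a.2.2 then (0 : ℝ) else 1) ≤
      if AG H then (1 : ℝ) else 0 := by
    intro H
    by_cases h : AG H
    · rw [if_pos h]
      have : 0 ≤ ∑ a ∈ T, (if GJ V0 p P ρ g m x rows H a.1 a.2.1 a.2.2 then (0 : ℝ) else 1) :=
        sum_nonneg fun a _ => by split_ifs <;> norm_num
      linarith
    · rw [if_neg h]
      rw [hAG] at h
      simp only [not_forall] at h
      obtain ⟨a, ha, hna⟩ := h
      have h5 : (if GJ V0 p P ρ g m x rows H a.1 a.2.1 a.2.2 then (0 : ℝ) else 1) ≤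
          ∑ a ∈ T, (if GJ V0 p P ρ g m x rows H a.1 a.2.1 a.2.2 then (0 : ℝ) else 1) :=
        single_le_sum (f := fun a : ℕ × ℕ × ℕ =>
          (if GJ V0 p P ρ g m x rows H a.1 a.2.1 a.2.2 then (0 : ℝ) else 1))
          (fun a _ => by split_ifs <;> norm_num) ha
      rw [if_neg hna] at h5
      linarith
  have hB : ∀ a ∈ T, 𝔼 H ∈ BLL R S,
      (if GJ V0 p P ρ g m x rows H a.1 a.2.1 a.2.2 then (0 : ℝ) else 1) ≤
      4 * (((P.eval (PP.PN.eval m) : ℕ) : ℝ) + 1) ^ 2 / (S : ℝ) := by
    rintro ⟨j, q, t⟩ ha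
    rw [hT, mem_product, mem_product, mem_range, mem_range, mem_range] at ha
    obtain ⟨ha1, ha2, ha3⟩ := ha
    refine GJ_prob hpred (hc m (by omega)) (by omega) (by omega) (fun u hu => ?_) ?_ ha2 ha3
    · rw [h2 u hu]; omega
    · simp only at ha1
      omega
  have hcard : T.card ≤ (m + 1) * (4 * M ^ 2 + 1) ^ (3 * cc) := by
    rw [hT, card_product, card_product, card_range, card_range, card_range]
    refine Nat.mul_le_mul (by omega) ?_
    have e1 : 2 ^ (rrP M * cc) * 2 ^ (rrP M * (2 * cc)) = (2 ^ rrP M) ^ (3 * cc) := by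
      rw [← pow_add, ← pow_mul]
      congr 1
      ring
    rw [e1]
    exact Nat.pow_le_pow_left hr2 _
  have hfin : (1 : ℝ) / 2 ≤ 𝔼 H ∈ BLL R S, (if AG H then (1 : ℝ) else 0) := by
    have e1 : 𝔼 H ∈ BLL R S, (1 - ∑ a ∈ T,
        (if GJ V0 p P ρ g m x rows H a.1 a.2.1 a.2.2 then (0 : ℝ) else 1)) ≤
        𝔼 H ∈ BLL R S, (if AG H then (1 : ℝ) else 0) := expect_le_expect fun H _ => hU H
    refine le_trans ?_ e1
    rw [expect_sub_distrib, expect_const (BLL_nonempty R S), expect_sum_comm]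
    have e2 : ∑ a ∈ T, 𝔼 H ∈ BLL R S,
        (if GJ V0 p P ρ g m x rows H a.1 a.2.1 a.2.2 then (0 : ℝ) else 1) ≤
        T.card * (4 * (((P.eval (PP.PN.eval m) : ℕ) : ℝ) + 1) ^ 2 / (S : ℝ)) := by
      refine (sum_le_card_nsmul T _ _ hB).trans (le_of_eq ?_)
      rw [nsmul_eq_mul]
    have e3 : (T.card : ℝ) * (4 * (((P.eval (PP.PN.eval m) : ℕ) : ℝ) + 1) ^ 2 / (S : ℝ)) ≤
        1 / 2 := num_bound hcard (QS_eval P m)
    linarith
  -- from blocks to strings
  have hA : (AA p P ρ c0).eval x.length = S * R + 0 := by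
    rw [AA_eval, ← hm, add_zero]
  rw [hA]
  have hrows := expect_rows R S 0 (fun H _ => if AG H then (1 : ℝ) else 0)
  have e5 : ∀ H ∈ BLL R S, 𝔼 v ∈ BL 0, (if AG H then (1 : ℝ) else 0) =
      if AG H then (1 : ℝ) else 0 := fun H _ => expect_const (BL_nonempty 0) _
  rw [expect_congr rfl e5] at hrows
  rw [← hrows] at hfin
  refine hfin.trans (expect_le_expect fun h hh => ?_)
  by_cases hag : AG (rowsL R S h)
  · rw [if_pos hag, if_pos]
    have hFF : FF V0 p P ρ g c0 x rows (HH p P ρ c0 x h) = w := by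
      refine FF_eq (m := m) hm ?_ h3 ?_
      · unfold HH
        rw [← hm, Helper6K1.BN.rowsL_length]
      · intro j hj q hq t ht
        have := hag (j, q, t) (by
          rw [hT, mem_product, mem_product, mem_range, mem_range, mem_range]
          exact ⟨by simp only; omega, hq, ht⟩)
        unfold HH
        rw [← hm]
        exact this
    have e6 : ∀ u ∈ BL (mm p x), 𝔼 d ∈ BL (S * R + 0),
        sg (BB V0 p P ρ g c0 (x, rows, h, u, d) ^^ ip u (cd w)) = 1 := by
      intro u _
      have e7 : ∀ d ∈ BL (S * R + 0),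
          sg (BB V0 p P ρ g c0 (x, rows, h, u, d) ^^ ip u (cd w)) = 1 := by
        intro d _
        unfold BB
        simp only
        rw [hFF, Bool.xor_self]
        rfl
      rw [expect_congr rfl e7, expect_const (BL_nonempty _)]
    rw [expect_congr rfl e6, expect_const (BL_nonempty _)]
    norm_num
  · rw [if_neg hag]
    split_ifs <;> norm_num

end

/-- If all languages in `NP` are parity predictable by randomised algorithms, then `NP ⊆ BPP`. -/
theorem bpp_of_all (h : ∀ L : Set (List Bool), InNP L → RPredictable L) {L : Set (List Bool)}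
    (hL : InNP L) : InBPP L := by
  obtain ⟨V0, p, hV0, hLV⟩ := hL
  have hL2 : ∀ x, x ∈ L ↔ ∃ w, ver V0 p x w = true := by
    intro x
    rw [hLV x]
    exact exists_congr fun w => ver_iff.symm
  obtain ⟨P, ρ, g, hg, hpred⟩ := h _ (WN_inNP hV0 p)
  obtain ⟨c0, hc0⟩ := poly_lt_two_pow (Polynomial.C 2 * QM P ^ 2)
  refine engine_BPP hV0 (BB_poly (ρ := ρ) (P := P) (c0 := c0 + 1) hV0 (poly_g hg))
    (good hpred (fun m hm => ?_) (by omega)) (fun n => by simp) hL2
  have := hc0 m (by omega)
  simpa using this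

end Pool.Agent.Helper70K1.NB
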