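import Pool.Agent.Helper70K1.NB.Samp

/-!
# The NP language of the words of the certificates
-/

set_option autoImplicit false

namespace Pool.Agent.Helper70K1.NB

open Pool.Agent.NPC
open Pool.Agent.H579R2.Spt (ip cd ip_poly ver ver_poly ver_iff)
open Pool.Agent.Helper70K1.SP
open Pool.Agent.Helper70K1.PP (bitP poly_wd poly_hh cc)

/-- The instances: an input, rows, and the data `j`, `q`, `f`, `t`, `i` of a bit of a word. -/
abbrev QN : Type := List Bool × List (List Bool) × ℕ × ℕ × List Bool × ℕ × ℕ

/-- The bit of the word of the certificate `w`. -/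
def bw (Q : QN) (w : List Bool) : Bool :=
  bitP Q.2.2.2.2.1 Q.2.2.2.2.2.1 (valB (cd w) % 2 ^ min Q.2.2.1 (cd w).length % Q.2.2.2.1)
    Q.2.2.2.2.2.2

/-- Some certificate that is orthogonal to the rows has the given bit in its word. -/
def WN (V0 : List Bool → List Bool) (p : Polynomial ℕ) (Q : QN) : Prop :=
  ∃ w, ver V0 p Q.1 w = true ∧ Q.2.1.all (fun a => !ip a (cd w)) = true ∧ bw Q w = true

theorem poly_cd {α : Type} [TEnc α] {w : α → List Bool} (hw : NPC.Poly w) :
    NPC.Poly (fun a => cd (w a)) := by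
  unfold cd
  exact NPC.Poly.append hw (NPC.Poly.const _)

theorem poly_bitP {α : Type} [TEnc α] {f : α → List Bool} {t u i : α → ℕ} (hf : NPC.Poly f)
    (ht : NPC.Poly t) (hu : NPC.Poly u) (hi : NPC.Poly i) :
    NPC.Poly (fun a => bitP (f a) (t a) (u a) (i a)) := by
  unfold bitP
  have hr : UPoly (fun a => (f a).length) := UPoly.length hf
  exact poly_wd hr hf (poly_hh cc hr hf ht (NPC.Poly.const 0) hu)
    (poly_hh cc hr hf ht (NPC.Poly.const cc) hu) hi

theorem poly_bw : NPC.Poly (fun x : QN × List Bool => bw x.1 x.2) := by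
  have h1 : NPC.Poly (fun x : QN × List Bool => cd x.2) := poly_cd (NPC.Poly.snd NPC.Poly.id)
  have h2 : NPC.Poly (fun x : QN × List Bool => 2 ^ min x.1.2.2.1 (cd x.2).length) :=
    poly_pow2 (UPoly.of_le (n := fun x : QN × List Bool => (cd x.2).length) (by fun_prop)
      (UPoly.length h1) fun x => min_le_right _ _)
  have h3 : NPC.Poly (fun x : QN × List Bool =>
      valB (cd x.2) % 2 ^ min x.1.2.2.1 (cd x.2).length % x.1.2.2.2.1) := by
    have h4 := NPC.Poly.valBits h1
    fun_prop
  unfold bw
  exact poly_bitP (by fun_prop) (by fun_prop) h3 (by fun_prop)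

theorem WN_inNP {V0 : List Bool → List Bool} (hV0 : PolyTime V0) (p : Polynomial ℕ) :
    InNP (lang (WN V0 p)) := by
  have hR : NPC.Poly (fun q : QN × List Bool => (ver V0 p q.1.1 q.2 &&
      q.1.2.1.all (fun a => !ip a (cd q.2))) && bw q.1 q.2) := by
    have e0 : NPC.Poly (fun q : QN × List Bool => q.1) := NPC.Poly.fst NPC.Poly.id
    have ew : NPC.Poly (fun q : QN × List Bool => q.2) := NPC.Poly.snd NPC.Poly.id
    have ecd := poly_cd ew
    have e1 : NPC.Poly (fun q : QN × List Bool => q.1.2) := NPC.Poly.snd e0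
    refine NPC.Poly.and (NPC.Poly.and ((ver_poly hV0 p).comp (NPC.Poly.pair (NPC.Poly.fst e0) ew))
      (NPC.Poly.all (l := fun q : QN × List Bool => q.1.2.1)
        (p := fun q a => !ip a (cd q.2)) (NPC.Poly.fst e1) ?_)) poly_bw
    exact NPC.Poly.not (ip_poly (NPC.Poly.snd NPC.Poly.id) (ecd.comp (NPC.Poly.fst NPC.Poly.id)))
  refine inNPP_of (α := QN) (β := List Bool)
    (R := fun q : QN × List Bool => (ver V0 p q.1.1 q.2 &&
      q.1.2.1.all (fun a => !ip a (cd q.2))) && bw q.1 q.2) hR (4 * p + 1) ?_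
  intro Q
  constructor
  · rintro ⟨w, h1, h2, h3⟩
    refine ⟨w, ?_, ?_⟩
    · have h4 : w.length ≤ p.eval Q.1.length := (ver_iff.1 h1).1
      have h5 := sz_listBool_le w
      have h6 : p.eval Q.1.length ≤ p.eval (sz Q) := by
        refine eval_mono p ?_
        have := length_lt_sz Q.1
        have h7 : sz Q = sz Q.1 + sz Q.2 + 1 := sz_pair Q.1 Q.2
        omega
      simp only [Polynomial.eval_add, Polynomial.eval_mul, Polynomial.eval_ofNat,
        Polynomial.eval_one]
      omega
    · simp only [h1, h2, h3, Bool.and_self]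
  · rintro ⟨w, _, hw⟩
    simp only [Bool.and_eq_true] at hw
    exact ⟨w, hw.1.1, hw.1.2, hw.2⟩

/-- The bits of the words of a unique certificate. -/
theorem mem_WN {V0 : List Bool → List Bool} {p : Polynomial ℕ} {x : List Bool}
    {rows : List (List Bool)} {w : List Bool} (hw : ver V0 p x w = true)
    (hr : rows.all (fun a => !ip a (cd w)) = true)
    (hu : ∀ w', ver V0 p x w' = true → rows.all (fun a => !ip a (cd w')) = true → w' = w)
    (j q : ℕ) (f : List Bool) (t i : ℕ) :
    bits ((x, rows, j, q, f, t, i) : QN) ∈ lang (WN V0 p) ↔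
      bitP f t (valB (cd w) % 2 ^ j % q) i = true := by
  have h0 : valB (cd w) % 2 ^ min j (cd w).length = valB (cd w) % 2 ^ j := by
    have h1 := valB_lt (cd w)
    rcases le_total j (cd w).length with h2 | h2
    · rw [min_eq_left h2]
    · rw [min_eq_right h2, Nat.mod_eq_of_lt h1, Nat.mod_eq_of_lt (lt_of_lt_of_le h1
        (Nat.pow_le_pow_right (by norm_num) h2))]
  rw [bits_mem_lang]
  constructor
  · rintro ⟨w', h1, h2, h3⟩
    rw [hu w' h1 h2] at h3
    change bitP f t (valB (cd w) % 2 ^ min j (cd w).length % q) i = true at h3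
    rwa [h0] at h3
  · intro h
    refine ⟨w, hw, hr, ?_⟩
    change bitP f t (valB (cd w) % 2 ^ min j (cd w).length % q) i = true
    rwa [h0]

/-- The certificate is determined by its number. -/
theorem bits_valB_cd (w : List Bool) : (valB (cd w)).bits = cd w := by
  have h1 : valB (cd w) = valB w + 2 ^ w.length := by
    unfold cd
    rw [valB_append]
    simp
  have h2 := valB_lt w
  refine valB_inj _ _ ?_ (valB_bits _)
  rw [Nat.size_eq_bits_len]
  have h3 : (cd w).length = w.length + 1 := by simp [cd]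
  rw [h3]
  refine le_antisymm (Nat.size_le.2 (by rw [h1, pow_succ]; omega)) ?_
  rw [Nat.succ_le_iff, Nat.lt_size, h1]
  omega

end Pool.Agent.Helper70K1.NB
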