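import Pool.Agent.Helper70K1.PP.Main
import Pool.Agent.Helper70K1.NB.Defs
import Pool.Agent.Helper6K1.BN.Aux1
import Pool.Agent.Helper6K1.BN.T1b

/-!
# Samples of statements
-/

set_option autoImplicit false

namespace Pool.Agent.Helper70K1.NB

open Finset BigOperators Pool.Agent.NPC
open Pool.Agent.Helper6K1.BN (prob prob_eq BLL mem_BLL BLL_nonempty expect_BLL_zero expect_BLL_succ
  BL_nonempty expect_BL_take expect_BL_split expect_rows)
open Pool.Agent.H579R2.Spt (BL mem_BL)
open Pool.Agent.Helper70K1.PP (holds cor GoodG)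

/-! ### The second moment -/

theorem moment {R : ℕ} (f : List Bool → ℝ) (hf : 𝔼 u ∈ BL R, f u = 0)
    (hb : ∀ u, f u ^ 2 ≤ 1) : ∀ S : ℕ, 𝔼 H ∈ BLL R S, ((H.map f).sum) ^ 2 ≤ (S : ℝ)
  | 0 => by rw [expect_BLL_zero]; simp
  | S + 1 => by
    rw [expect_BLL_succ]
    have ih := moment f hf hb S
    have h1 : ∀ u ∈ BL R, 𝔼 l ∈ BLL R S, (((u :: l).map f).sum) ^ 2 =
        f u ^ 2 + 2 * f u * (𝔼 l ∈ BLL R S, (l.map f).sum) +
          𝔼 l ∈ BLL R S, ((l.map f).sum) ^ 2 := by
      intro u _
      have h2 : ∀ l ∈ BLL R S, (((u :: l).map f).sum) ^ 2 =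
          f u ^ 2 + 2 * f u * (l.map f).sum + ((l.map f).sum) ^ 2 := by
        intro l _
        rw [List.map_cons, List.sum_cons]
        ring
      rw [expect_congr rfl h2, expect_add_distrib, expect_add_distrib,
        expect_const (BLL_nonempty R S), ← mul_expect]
    rw [expect_congr rfl h1, expect_add_distrib, expect_add_distrib,
      expect_const (BL_nonempty R)]
    have h3 : 𝔼 u ∈ BL R, 2 * f u * (𝔼 l ∈ BLL R S, (l.map f).sum) = 0 := by
      have h4 : ∀ u ∈ BL R, 2 * f u * (𝔼 l ∈ BLL R S, (l.map f).sum) =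
          (2 * (𝔼 l ∈ BLL R S, (l.map f).sum)) * f u := fun u _ => by ring
      rw [expect_congr rfl h4, ← mul_expect, hf, mul_zero]
    have h5 : 𝔼 u ∈ BL R, f u ^ 2 ≤ 1 := expect_le (BL_nonempty R) fun u _ => hb u
    rw [h3]
    push_cast
    linarith

/-- The number of successes in `S` independent experiments is not much smaller than expected. -/
theorem few_fail {R : ℕ} (c : List Bool → Bool) {p : ℕ}
    (hc : 1 / 2 + 1 / ((p : ℝ) + 1) ≤ prob R fun b => c b = true) (S : ℕ) (hS : 0 < S) :
    𝔼 H ∈ BLL R S, (if S * (p + 2) ≤ 2 * (p + 1) * (H.filter c).length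
      then (0 : ℝ) else 1) ≤ 4 * ((p : ℝ) + 1) ^ 2 / S := by
  set μ := 𝔼 u ∈ BL R, (if c u = true then (1 : ℝ) else 0) with hμ
  have hc' : 1 / 2 + 1 / ((p : ℝ) + 1) ≤ μ := by
    refine hc.trans (le_of_eq ?_)
    rw [prob_eq, hμ]
    refine expect_congr rfl fun u _ => ?_
    by_cases h : c u = true <;> simp [h]
  have hμ0 : 0 ≤ μ := by
    rw [hμ]
    exact expect_nonneg fun u _ => by split_ifs <;> norm_num
  have hμ1 : μ ≤ 1 := by
    rw [hμ]
    exact expect_le (BL_nonempty R) fun r _ => by split_ifs <;> norm_num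
  set f : List Bool → ℝ := fun u => (if c u = true then (1 : ℝ) else 0) - μ with hf
  have hf0 : 𝔼 u ∈ BL R, f u = 0 := by
    rw [hf, expect_sub_distrib, expect_const (BL_nonempty R), hμ]
    ring
  have hf1 : ∀ u, f u ^ 2 ≤ 1 := by
    intro u
    rw [hf]
    simp only
    split_ifs <;> nlinarith
  have hm := moment f hf0 hf1 S
  have hSR : (0 : ℝ) < S := by exact_mod_cast hS
  have hp : (0 : ℝ) < (p : ℝ) + 1 := by positivity
  have hsum : ∀ H : List (List Bool), (H.map f).sum =
      ((H.filter c).length : ℝ) - H.length * μ := by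
    intro H
    induction H with
    | nil => simp
    | cons b H ih =>
      rw [List.map_cons, List.sum_cons, ih, hf]
      simp only
      by_cases hb : c b = true
      · rw [List.filter_cons_of_pos hb, if_pos hb]
        push_cast [List.length_cons]
        ring
      · rw [List.filter_cons_of_neg hb, if_neg hb]
        push_cast [List.length_cons]
        ring
  have key : ∀ H ∈ BLL R S, (if S * (p + 2) ≤
      2 * (p + 1) * (H.filter c).length then (0 : ℝ) else 1) ≤
      4 * ((p : ℝ) + 1) ^ 2 / S ^ 2 * ((H.map f).sum) ^ 2 := by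
    intro H hH
    split_ifs with h
    · positivity
    · rw [not_le] at h
      have h1 : (2 * ((p : ℝ) + 1)) * ((H.filter c).length : ℝ) <
          S * ((p : ℝ) + 2) := by exact_mod_cast h
      have h2 := hsum H
      rw [(mem_BLL.1 hH).1] at h2
      set X := ((H.filter c).length : ℝ) with hX
      have h3 : (S : ℝ) / (2 * ((p : ℝ) + 1)) ≤ -(H.map f).sum := by
        rw [h2, div_le_iff₀ (by positivity)]
        have h4 : 1 / 2 + 1 / ((p : ℝ) + 1) = ((p : ℝ) + 3) / (2 * ((p : ℝ) + 1)) := by
          field_simp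
          ring
        rw [h4, div_le_iff₀ (by positivity)] at hc'
        nlinarith
      have h5 : ((S : ℝ) / (2 * ((p : ℝ) + 1))) ^ 2 ≤ ((H.map f).sum) ^ 2 := by
        rw [← neg_sq (H.map f).sum]
        exact pow_le_pow_left₀ (by positivity) h3 2
      have h6 : 4 * ((p : ℝ) + 1) ^ 2 / S ^ 2 * ((S : ℝ) / (2 * ((p : ℝ) + 1))) ^ 2 = 1 := by
        field_simp
        norm_num
      calc (1 : ℝ) = 4 * ((p : ℝ) + 1) ^ 2 / S ^ 2 * ((S : ℝ) / (2 * ((p : ℝ) + 1))) ^ 2 := h6.symm
        _ ≤ _ := by gcongr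
  refine (expect_le_expect key).trans ?_
  rw [← mul_expect]
  calc 4 * ((p : ℝ) + 1) ^ 2 / S ^ 2 * 𝔼 H ∈ BLL R S, ((H.map f).sum) ^ 2
      ≤ 4 * ((p : ℝ) + 1) ^ 2 / S ^ 2 * S := by gcongr
    _ = 4 * ((p : ℝ) + 1) ^ 2 / S := by
      field_simp

/-! ### The statements -/

/-- The admissible statements given by the blocks of random bits. -/
def GG (ρ : Polynomial ℕ) (g : List Bool → List Bool × Bool) (H xs : List (List Bool)) :
    List (List Bool × Bool) :=
  (H.map fun b => g (pairBits (bits xs) (b.take (ρ.eval (bits xs).length)))).filter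
    fun e => decide (e.1.length = xs.length) && decide (true ∈ e.1)

/-- The sample of random blocks is good for a list of strings. -/
def GoodH (ρ : Polynomial ℕ) (g : List Bool → List Bool × Bool) (y : List Bool) (p S : ℕ)
    (H xs : List (List Bool)) : Prop :=
  S * (p + 2) ≤ 2 * (p + 1) * cor (GG ρ g H xs) y

theorem cor_GG (ρ : Polynomial ℕ) (g : List Bool → List Bool × Bool) (y : List Bool)
    (H xs : List (List Bool)) : cor (GG ρ g H xs) y = (H.filter fun b =>
      (decide ((g (pairBits (bits xs) (b.take (ρ.eval (bits xs).length)))).1.length = xs.length) &&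
        decide (true ∈ (g (pairBits (bits xs) (b.take (ρ.eval (bits xs).length)))).1)) &&
        holds y (g (pairBits (bits xs) (b.take (ρ.eval (bits xs).length))))).length := by
  unfold cor GG
  rw [List.filter_filter, List.filter_map, List.length_map]
  congr 1
  refine List.filter_congr fun b _ => ?_
  simp only [Function.comp]
  rw [Bool.and_comm]

theorem goodH_spec {ρ : Polynomial ℕ} {g : List Bool → List Bool × Bool} {y : List Bool}
    {p S M : ℕ} {H xs : List (List Bool)} (hH : H.length = S) (hxs : xs.length = M)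
    (hM : 2 * (p + 1) ≤ M) (hS : 0 < S) (h : GoodH ρ g y p S H xs) :
    (GG ρ g H xs ≠ [] ∧ ∀ e ∈ GG ρ g H xs, e.1.length = M ∧ true ∈ e.1) ∧
      (M + 2) * (GG ρ g H xs).length ≤ 2 * M * cor (GG ρ g H xs) y := by
  unfold GoodH at h
  have h1 : (GG ρ g H xs).length ≤ S := by
    unfold GG
    refine (List.length_filter_le _ _).trans ?_
    rw [List.length_map, hH]
  have h2 : 0 < cor (GG ρ g H xs) y := by
    rcases Nat.eq_zero_or_pos (cor (GG ρ g H xs) y) with h3 | h3
    · rw [h3, mul_zero] at h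
      have : 0 < S * (p + 2) := by positivity
      omega
    · exact h3
  refine ⟨⟨?_, ?_⟩, ?_⟩
  · intro hnil
    rw [hnil] at h2
    simp [cor] at h2
  · intro e he
    unfold GG at he
    rw [List.mem_filter, Bool.and_eq_true, decide_eq_true_eq, decide_eq_true_eq, hxs] at he
    exact he.2
  · have h3 : (M + 2) * (GG ρ g H xs).length ≤ (M + 2) * S := Nat.mul_le_mul_left _ h1
    refine h3.trans ?_
    have h4 : (p + 1) * ((M + 2) * S) ≤ (p + 1) * (2 * M * cor (GG ρ g H xs) y) := by
      calc (p + 1) * ((M + 2) * S) = ((p + 1) * M + 2 * (p + 1)) * S := by ring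
        _ ≤ ((p + 1) * M + M) * S := Nat.mul_le_mul_right _ (by omega)
        _ = M * (S * (p + 2)) := by ring
        _ ≤ M * (2 * (p + 1) * cor (GG ρ g H xs) y) := Nat.mul_le_mul_left _ h
        _ = (p + 1) * (2 * M * cor (GG ρ g H xs) y) := by ring
    exact Nat.le_of_mul_le_mul_left h4 (Nat.succ_pos p)

open Classical in
/-- A random sample is good. -/
theorem goodH_prob {ρ : Polynomial ℕ} {g : List Bool → List Bool × Bool} {y : List Bool}
    {p S R : ℕ} {xs : List (List Bool)} (hS : 0 < S) (hR : ρ.eval (bits xs).length ≤ R)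
    (h : 1 / 2 + 1 / ((p : ℝ) + 1) ≤ prob (ρ.eval (bits xs).length) fun r =>
        (g (pairBits (bits xs) r)).1.length = xs.length ∧
        true ∈ (g (pairBits (bits xs) r)).1 ∧
        holds y (g (pairBits (bits xs) r)) = true) :
    𝔼 H ∈ BLL R S, (if GoodH ρ g y p S H xs then (0 : ℝ) else 1) ≤
      4 * ((p : ℝ) + 1) ^ 2 / S := by
  set c : List Bool → Bool := fun b =>
      (decide ((g (pairBits (bits xs) (b.take (ρ.eval (bits xs).length)))).1.length = xs.length) &&
        decide (true ∈ (g (pairBits (bits xs) (b.take (ρ.eval (bits xs).length)))).1)) &&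
        holds y (g (pairBits (bits xs) (b.take (ρ.eval (bits xs).length)))) with hc
  have hp : prob (ρ.eval (bits xs).length) (fun r =>
        (g (pairBits (bits xs) r)).1.length = xs.length ∧
        true ∈ (g (pairBits (bits xs) r)).1 ∧
        holds y (g (pairBits (bits xs) r)) = true) = prob R fun b => c b = true := by
    rw [prob_eq, prob_eq]
    obtain ⟨s, hs⟩ := Nat.exists_eq_add_of_le hR
    rw [hs, ← expect_BL_take (ρ.eval (bits xs).length) s]
    refine expect_congr rfl fun b _ => ?_
    rw [hc]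
    simp only [Bool.and_eq_true, decide_eq_true_eq, and_assoc]
    split_ifs <;> rfl
  rw [hp] at h
  refine le_trans (le_of_eq (expect_congr rfl fun H _ => ?_)) (few_fail c h S hS)
  unfold GoodH
  rw [cor_GG, hc]
  split_ifs <;> rfl

end Pool.Agent.Helper70K1.NB
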